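import Pool.Agent.Helper89.GP.GoalsB

/-! # GP, goal SEC -/

namespace Pool.Agent.Helper82.GP

open Finset Pool.Agent.Helper89.GP

variable {n : ℕ} {R : Fin n → Fin n → Prop}

theorem Pr_add_le {p q r s : Equiv.Perm (Fin n) → Prop}
    (h : ∀ σ ∈ LX R, (p σ → r σ ∨ s σ) ∧ (q σ → r σ ∨ s σ) ∧ (p σ → q σ → r σ ∧ s σ)) :
    Pr R p + Pr R q ≤ Pr R r + Pr R s := by
  classical
  rw [Pr_eq_Ex, Pr_eq_Ex, Pr_eq_Ex, Pr_eq_Ex, ← Ex_add, ← Ex_add]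
  refine Ex_mono fun σ hσ => ?_
  obtain ⟨h1, h2, h3⟩ := h σ hσ
  by_cases hp : p σ <;> by_cases hq : q σ <;> by_cases hr : r σ <;> by_cases hs : s σ <;>
    simp only [hp, hq, hr, hs, if_true, if_false] <;> first | (norm_num; done) | (exfalso; tauto)

theorem Pr_add_le' {p q r : Equiv.Perm (Fin n) → Prop}
    (h : ∀ σ ∈ LX R, (p σ → r σ) ∧ (q σ → r σ) ∧ (p σ → ¬ q σ)) :
    Pr R p + Pr R q ≤ Pr R r := by
  have h1 := Pr_add_le (R := R) (p := p) (q := q) (r := r) (s := fun _ => False)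
    fun σ hσ => ⟨fun hp => Or.inl ((h σ hσ).1 hp), fun hq => Or.inl ((h σ hσ).2.1 hq),
      fun hp hq => absurd hq ((h σ hσ).2.2 hp)⟩
  rw [Pr_eq_zero (p := fun _ => False) fun σ _ hf => hf, add_zero] at h1
  exact h1

theorem dist_le (u v : Fin n) (M A D : Equiv.Perm (Fin n) → Prop)
    (hlt : ∀ σ ∈ LX R, M σ → po σ u < po σ v)
    (hA : ∀ σ ∈ LX R, A σ ↔ (M σ ∧ po σ v = po σ u + 1))
    (hD : ∀ σ ∈ LX R, D σ ↔ (M σ ∧ po σ v = po σ u + 2))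
    (X : Equiv.Perm (Fin n) → ℝ) (hX1 : ∀ σ ∈ LX R, M σ → X σ = df σ u v)
    (hX0 : ∀ σ ∈ LX R, ¬ M σ → X σ = 0) :
    3 * Pr R M - 2 * Pr R A - Pr R D ≤ Ex R X := by
  classical
  rw [Pr_eq_Ex, Pr_eq_Ex, Pr_eq_Ex, ← Ex_mul, ← Ex_mul, ← Ex_sub, ← Ex_sub]
  refine Ex_mono fun σ hσ => ?_
  by_cases hM : M σ
  · have h1 := hlt σ hσ hM
    rw [hX1 σ hσ hM]
    unfold df
    by_cases hv1 : po σ v = po σ u + 1
    · have hA1 : A σ := (hA σ hσ).2 ⟨hM, hv1⟩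
      have hD1 : ¬ D σ := fun h => by
        have := ((hD σ hσ).1 h).2
        omega
      simp only [hM, hA1, hD1, if_true, if_false, hv1]
      push_cast
      linarith
    · have hA1 : ¬ A σ := fun h => hv1 ((hA σ hσ).1 h).2
      by_cases hv2 : po σ v = po σ u + 2
      · have hD1 : D σ := (hD σ hσ).2 ⟨hM, hv2⟩
        simp only [hM, hA1, hD1, if_true, if_false, hv2]
        push_cast
        linarith
      · have hD1 : ¬ D σ := fun h => hv2 ((hD σ hσ).1 h).2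
        have h3 : po σ u + 3 ≤ po σ v := by omega
        have h4 : ((po σ u : ℝ) + 3) ≤ po σ v := by exact_mod_cast h3
        simp only [hM, hA1, hD1, if_true, if_false]
        linarith
  · have hA1 : ¬ A σ := fun h => hM ((hA σ hσ).1 h).1
    have hD1 : ¬ D σ := fun h => hM ((hD σ hσ).1 h).1
    rw [hX0 σ hσ hM]
    simp only [hM, hA1, hD1, if_false]
    norm_num

theorem sec : SecStmt := by
  intro n R u v w
  refine ⟨⟨Pr_nonneg _, ?_, ?_, Pr_nonneg _, Pr_nonneg _⟩, ⟨?_, ?_, ?_⟩, ⟨?_, ?_⟩⟩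
  · exact Pr_mono fun σ _ h => ⟨h.1, by omega⟩
  · exact Pr_mono fun σ _ h => ⟨by omega, h.2⟩
  · refine Pr_add_le fun σ _ => ⟨fun h => Or.inl ⟨by omega, h.2⟩, fun h => Or.inl ⟨h.1, by omega⟩,
      fun h h' => ⟨⟨by omega, by omega⟩, h.1, h'.2⟩⟩
  · exact Pr_add_le' fun σ _ => ⟨fun h => ⟨by omega, h.2⟩, fun h => ⟨by omega, h.2⟩,
      fun h h' => by omega⟩
  · exact Pr_add_le' fun σ _ => ⟨fun h => ⟨h.1, by omega⟩, fun h => ⟨h.1, by omega⟩,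
      fun h h' => by omega⟩
  · refine dist_le u v _ _ _ (fun σ _ h => h.1) (fun σ _ => ⟨fun h => ⟨⟨by omega, h.2⟩, h.1⟩,
      fun h => ⟨h.2, h.1.2⟩⟩) (fun σ _ => ⟨fun h => ⟨⟨by omega, h.2⟩, h.1⟩,
      fun h => ⟨h.2, h.1.2⟩⟩) _ (fun σ _ h => if_pos h) fun σ _ h => if_neg h
  · refine dist_le v w _ _ _ (fun σ _ h => h.2) (fun σ _ => ⟨fun h => ⟨⟨h.1, by omega⟩, h.2⟩,
      fun h => ⟨h.1.1, h.2⟩⟩) (fun σ _ => ⟨fun h => ⟨⟨h.1, by omega⟩, h.2⟩,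
      fun h => ⟨h.1.1, h.2⟩⟩) _ (fun σ _ h => if_pos h) fun σ _ h => if_neg h

end Pool.Agent.Helper82.GP
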